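import Pool.Agent.Helper535.Z3
import Pool.Agent.Helper535.I

set_option autoImplicit false

open Set Topology Cardinal Filter
open Pool.Agent.Helper535

namespace Pool.Agent.Results.MP_e9bccb_gt.CountablyCompactSpaces

universe u w

/-- A family of continuous real functions on `X` whose diagonal maps `X` into a compact subset of
a Sigma-product. -/
def CFam {X : Type u} [TopologicalSpace X] {T : Type w} (h : T → C(X, ℝ)) : Prop :=
  ∃ K : Set (T → ℝ), IsCompact K ∧ (∀ x, (fun t => h t x) ∈ K) ∧ ∀ y ∈ K, {t | y t ≠ 0}.Countable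

/-- Every subset is split by such a family. -/
def CSplit (X : Type u) [TopologicalSpace X] : Prop :=
  ∀ A : Set X, ∃ (S : Type u) (h : S → C(X, ℝ)), CFam h ∧ ∀ x ∈ A, ∀ y ∉ A, ∃ s, h s x ≠ h s y

theorem CFam.countable {X : Type u} [TopologicalSpace X] {T : Type w} {h : T → C(X, ℝ)}
    (H : CFam h) (x : X) : {t | h t x ≠ 0}.Countable := by
  obtain ⟨K, -, h1, h2⟩ := H
  exact h2 _ (h1 x)

/-- Countably many sets can be split simultaneously. -/
theorem CSplit.simul {X : Type u} [TopologicalSpace X] (H : CSplit X) (A : ℕ → Set X) :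
    ∃ (S : Type u) (h : S → C(X, ℝ)), CFam h ∧
      ∀ n, ∀ x ∈ A n, ∀ y ∉ A n, ∃ s, h s x ≠ h s y := by
  choose S h hF hsep using fun n => H (A n)
  choose K hK hx hy using hF
  refine ⟨Σ n, S n, fun s => h s.1 s.2,
    ⟨(fun (z : ∀ n, S n → ℝ) (s : Σ n, S n) => z s.1 s.2) '' (Set.pi univ K), ?_, ?_, ?_⟩, ?_⟩
  · exact (isCompact_univ_pi hK).image
      (continuous_pi fun s => (continuous_apply s.2).comp (continuous_apply s.1))
  · intro x
    exact ⟨fun n t => h n t x, fun n _ => hx n x, rfl⟩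
  · rintro _ ⟨z, hz, rfl⟩
    have h1 : {s : Σ n, S n | z s.1 s.2 ≠ 0} ⊆
        ⋃ n, (fun t => (⟨n, t⟩ : Σ n, S n)) '' {t | z n t ≠ 0} := by
      rintro ⟨n, t⟩ hs
      exact mem_iUnion.2 ⟨n, t, hs, rfl⟩
    exact (countable_iUnion fun n => (hy n (z n) (hz n (mem_univ n))).image _).mono h1
  · intro n x hx y hy
    obtain ⟨s, hs⟩ := hsep n x hx y hy
    exact ⟨⟨n, s⟩, hs⟩

/-- Limits along ultrafilters have countable support. -/
theorem CFam.ultra_lim {X : Type u} [TopologicalSpace X] {T : Type w} {h : T → C(X, ℝ)}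
    (H : CFam h) {ι : Type*} (𝓤 : Ultrafilter ι) (x : ι → X) :
    ∃ y : T → ℝ, {t | y t ≠ 0}.Countable ∧
      ∀ t, Tendsto (fun n => h t (x n)) (𝓤 : Filter ι) (𝓝 (y t)) := by
  obtain ⟨K, hK, h1, h2⟩ := H
  obtain ⟨y, hyK, hy⟩ := hK.ultrafilter_le_nhds (𝓤.map fun n t => h t (x n)) (by
    rw [le_principal_iff, Ultrafilter.coe_map, Filter.mem_map]
    exact Filter.univ_mem' fun n => h1 (x n))
  refine ⟨y, h2 y hyK, ?_⟩
  have h3 : Tendsto (fun n t => h t (x n)) (𝓤 : Filter ι) (𝓝 y) := hy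
  exact tendsto_pi_nhds.1 h3

/-- closures of countable sets are small -/
theorem code_of_cc {X : Type u} [TopologicalSpace X] (hcc : CC X) (hS : CSplit X) {C : Set X}
    (hC : C.Countable) : ∃ code : X → ℕ → ℕ, InjOn code (closure C) := by
  classical
  rcases C.eq_empty_or_nonempty with rfl | hne
  · exact ⟨fun _ _ => 0, by simp⟩
  obtain ⟨c0, rfl⟩ := hC.exists_eq_range hne
  choose cl hcl using fun σ : ℕ → ℕ => hcc (fun n => c0 (σ n))
  obtain ⟨T, h, H, sep⟩ := hS (range cl)
  have key : ∀ x ∈ closure (range c0), ∃ σ, cl σ = x := by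
    intro x hx
    obtain ⟨q, hq1, hq2⟩ := seq_lemma h (fun x => H.countable x) (fun _ => range c0) (fun t => h t x)
      (H.countable x) (by
        intro n a ε hε
        have hV : IsOpen (⋂ t ∈ a, {z | |h t z - h t x| < ε}) :=
          isOpen_biInter_finset fun t _ =>
            isOpen_lt ((h t).continuous.sub continuous_const).abs continuous_const
        obtain ⟨z, hz1, hz2⟩ := mem_closure_iff.1 hx _ hV (by
          simp only [mem_iInter]
          intro t _
          show |h t x - h t x| < ε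
          simpa using hε)
        refine ⟨z, hz2, ?_⟩
        intro t ht
        simp only [mem_iInter] at hz1
        exact hz1 t ht)
    choose σ hσ using hq1
    have h2 := hcl σ
    simp only [hσ] at h2
    have h3 : ∀ t, h t (cl σ) = h t x := fun t => cluster_eq h2 (hq2 t)
    by_contra hcon
    have hx' : x ∉ range cl := fun h => hcon h
    obtain ⟨t, ht⟩ := sep (cl σ) ⟨σ, rfl⟩ x hx'
    exact ht (h3 t)
  choose! code hcode using key
  refine ⟨code, ?_⟩
  intro x hx y hy hxy
  rw [← hcode x hx, ← hcode y hy, hxy]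

theorem CSplit.iso {X : Type u} [TopologicalSpace X] (hS : CSplit X) {Z : Set X}
    {code : X → ℕ → ℕ} (hcode : InjOn code Z) : ∃ (T : Type u) (h : T → C(X, ℝ)), CFam h ∧
      ∀ z ∈ Z, ∀ x, (∀ t, h t x = h t z) → x = z := by
  classical
  obtain ⟨T, h, H, sep⟩ := hS.simul (fun m => match m with
    | 0 => Z
    | m+1 => {x | x ∈ Z ∧ code x m.unpair.1 = m.unpair.2})
  refine ⟨T, h, H, ?_⟩
  intro z hz x hx
  by_cases hxZ : x ∈ Z
  · by_contra hne
    have h1 : code x ≠ code z := fun h => hne (hcode hxZ hz h)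
    obtain ⟨n, hn⟩ := Function.ne_iff.1 h1
    obtain ⟨t, ht⟩ := sep (Nat.pair n (code z n) + 1) z ⟨hz, by simp⟩ x (by
      rintro ⟨-, h2⟩
      apply hn
      simpa using h2)
    exact ht (hx t).symm
  · obtain ⟨t, ht⟩ := sep 0 z hz x hxZ
    exact absurd (hx t).symm ht

theorem compact_closure_of_cc {X : Type u} [TopologicalSpace X] [T35Space X] (hcc : CC X)
    (hS : CSplit X) {C : Set X} (hC : C.Countable) : IsCompact (closure C) := by
  classical
  obtain ⟨code, hcode⟩ := code_of_cc hcc hS hC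
  obtain ⟨T, h, H, iso⟩ := hS.iso hcode
  rw [isCompact_iff_ultrafilter_le_nhds]
  intro 𝓤 h𝓤
  rw [le_principal_iff] at h𝓤
  obtain ⟨y, hysupp, hy⟩ := H.ultra_lim 𝓤 id
  have claim : ∀ Q ∈ 𝓤, ∃ x ∈ closure Q, x ∈ closure C ∧ ∀ t, h t x = y t := by
    intro Q hQ
    obtain ⟨q, hq1, hq2⟩ := seq_lemma h (fun x => H.countable x) (fun _ => Q ∩ closure C) y hysupp (by
      intro n a ε hε
      have e1 : ∀ᶠ z in (𝓤 : Filter X), ∀ t ∈ a, |h t z - y t| < ε := by
        rw [eventually_all_finset]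
        intro t _
        have := hy t
        rw [Metric.tendsto_nhds] at this
        exact this ε hε
      obtain ⟨z, hz1, hz2⟩ := (e1.and (inter_mem hQ h𝓤)).exists
      exact ⟨z, hz2, hz1⟩)
    obtain ⟨z, hz⟩ := hcc q
    exact ⟨z, cluster_closed hz isClosed_closure fun n => subset_closure (hq1 n).1,
      cluster_closed hz isClosed_closure fun n => (hq1 n).2, fun t => cluster_eq hz (hq2 t)⟩
  obtain ⟨x0, -, hx0, hx0y⟩ := claim Set.univ Filter.univ_mem
  refine ⟨x0, hx0, ?_⟩
  intro W hW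
  obtain ⟨O, hOW, hO, hxO⟩ := mem_nhds_iff.1 hW
  by_contra hcon
  have h1 : O ∉ 𝓤 := fun h => hcon (Filter.mem_of_superset h hOW)
  have h2 : Oᶜ ∈ 𝓤 := Ultrafilter.compl_mem_iff_notMem.2 h1
  obtain ⟨x1, hx1, -, hx1y⟩ := claim _ h2
  rw [hO.isClosed_compl.closure_eq] at hx1
  have h3 : x1 = x0 := iso x0 hx0 x1 fun t => (hx1y t).trans (hx0y t).symm
  rw [h3] at hx1
  exact hx1 hxO

theorem compact_of_cc {X : Type u} [TopologicalSpace X] [T35Space X] (hcc : CC X)
    (hS : CSplit X) : CompactSpace X := by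
  classical
  constructor
  rw [isCompact_iff_ultrafilter_le_nhds]
  by_contra hcon
  push Not at hcon
  obtain ⟨𝓤, -, h𝓤⟩ := hcon
  -- closed sets away from closures of countable sets
  have hGex : ∀ C : Set X, ∃ G : Set X, C.Countable → IsClosed G ∧ G ∈ 𝓤 ∧
      ∀ x ∈ closure C, x ∉ G := by
    intro C
    by_cases hC : C.Countable
    · have h1 : ∃ U : Set X, IsOpen U ∧ closure C ⊆ U ∧ U ∉ 𝓤 := by
        by_contra hcon2
        push Not at hcon2
        obtain ⟨c, hc, hle⟩ := ultra_compact (compact_closure_of_cc hcc hS hC) 𝓤 hcon2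
        exact h𝓤 c (mem_univ c) hle
      obtain ⟨U, hU1, hU2, hU3⟩ := h1
      exact ⟨Uᶜ, fun _ => ⟨hU1.isClosed_compl, Ultrafilter.compl_mem_iff_notMem.2 hU3,
        fun x hx hxU => hxU (hU2 hx)⟩⟩
    · exact ⟨∅, fun h => absurd h hC⟩
  choose G hG using hGex
  -- the first uncountable ordinal
  let ι : Type := (ℵ₁ : Cardinal.{0}).ord.ToType
  have hι : #ι = ℵ₁ := Cardinal.mk_ord_toType _
  have hIio : ∀ i : ι, (Iio i).Countable := by
    intro i
    have h1 := Cardinal.mk_Iio_lt i (by simp [ι])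
    rw [hι] at h1
    rw [← Cardinal.le_aleph0_iff_set_countable]
    exact Order.lt_succ_iff.1 (by rw [Cardinal.succ_aleph0]; exact h1)
  have hIic : ∀ i : ι, (Iic i).Countable := by
    intro i
    have : Iic i = Iio i ∪ {i} := by
      ext j; simp [le_iff_lt_or_eq]
    rw [this]
    exact (hIio i).union (countable_singleton i)
  have hne : Nonempty ι := by
    rw [← Cardinal.mk_ne_zero_iff, hι]
    exact (Cardinal.aleph0_pos.trans Cardinal.aleph0_lt_aleph_one).ne'
  have hbd : ∀ s : Set ι, s.Countable → ∃ i, ∀ j ∈ s, j < i := by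
    intro s hs
    by_contra hall
    push Not at hall
    have h1 : (Set.univ : Set ι) ⊆ ⋃ j ∈ s, Iic j := by
      intro i _
      obtain ⟨j, hj, hij⟩ := hall i
      simp only [mem_iUnion]
      exact ⟨j, hj, hij⟩
    have h2 : (Set.univ : Set ι).Countable := (hs.biUnion fun j _ => hIic j).mono h1
    rw [← Cardinal.le_aleph0_iff_set_countable, Cardinal.mk_univ, hι] at h2
    exact absurd h2 (not_le.2 Cardinal.aleph0_lt_aleph_one)
  obtain ⟨cι, hcι⟩ : ∃ c : ι → (ℕ → Bool), Function.Injective c := by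
    have h1 : #ι ≤ #(ℕ → Bool) := by
      rw [hι]
      have : #(ℕ → Bool) = 𝔠 := by simp
      rw [this]; exact Cardinal.aleph_one_le_continuum
    obtain ⟨f⟩ := (Cardinal.le_def _ _).1 h1
    exact ⟨f, f.injective⟩
  have hXne : Nonempty X := by
    obtain ⟨x, -⟩ := 𝓤.neBot.nonempty_of_mem Filter.univ_mem
    exact ⟨x⟩
  -- the recursion
  let prev : ∀ i : ι, (∀ j, j < i → X) → ι → Set X := fun i g j =>
    {z | ∃ k, ∃ hk : k < i, k < j ∧ z = g k hk}
  let step : ∀ i : ι, (∀ j, j < i → X) → X := fun i g =>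
    if hne : (⋂ j ∈ Iic i, G (prev i g j)).Nonempty then hne.some else Classical.arbitrary X
  let x : ι → X := WellFounded.fix (wellFounded_lt (α := ι)) step
  have hx : ∀ i, x i = step i (fun j _ => x j) := by
    intro i
    exact WellFounded.fix_eq (wellFounded_lt (α := ι)) step i
  have hprev : ∀ i j, j ≤ i → prev i (fun j _ => x j) j = x '' Iio j := by
    intro i j hji
    ext z
    constructor
    · rintro ⟨k, hk, hkj, rfl⟩; exact ⟨k, hkj, rfl⟩
    · rintro ⟨k, hkj, rfl⟩
      exact ⟨k, lt_of_lt_of_le hkj hji, hkj, rfl⟩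
  have hcnt : ∀ j : ι, (x '' Iio j).Countable := fun j => (hIio j).image x
  have hxG : ∀ i j : ι, j ≤ i → x i ∈ G (x '' Iio j) := by
    intro i j hji
    have h1 : (⋂ j ∈ Iic i, G (prev i (fun j _ => x j) j)).Nonempty := by
      apply hcc.fip 𝓤 (hIic i) (fun j => G (prev i (fun j _ => x j) j))
      · intro j hj
        rw [hprev i j hj]
        exact (hG _ (hcnt j)).1
      · intro j hj
        rw [hprev i j hj]
        exact (hG _ (hcnt j)).2.1
    have h2 : x i ∈ ⋂ j ∈ Iic i, G (prev i (fun j _ => x j) j) := by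
      rw [hx i]
      simp only [step, h1, dif_pos]
      exact h1.some_mem
    simp only [mem_iInter] at h2
    have h3 := h2 j hji
    rwa [hprev i j hji] at h3
  -- coding the union of the closures
  choose cd hcd using fun i : ι => code_of_cc hcc hS (hcnt i)
  let K : Set X := ⋃ i, closure (x '' Iio i)
  have hKi : ∀ z, ∃ i, z ∈ K → z ∈ closure (x '' Iio i) := by
    intro z
    by_cases hz : z ∈ K
    · obtain ⟨i, hi⟩ := mem_iUnion.1 hz
      exact ⟨i, fun _ => hi⟩
    · exact ⟨Classical.arbitrary ι, fun h => absurd h hz⟩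
  choose ix hix using hKi
  let code : X → ℕ → ℕ := fun z n => Nat.pair (if cι (ix z) n then 1 else 0) (cd (ix z) z n)
  have hcode : InjOn code K := by
    intro z hz w hw hzw
    have h1 : ∀ n, (if cι (ix z) n then 1 else 0) = (if cι (ix w) n then 1 else 0) ∧
        cd (ix z) z n = cd (ix w) w n := by
      intro n
      have := congrFun hzw n
      simp only [code, Nat.pair_eq_pair] at this
      exact this
    have h2 : ix z = ix w := by
      apply hcι
      funext n
      have h3 := (h1 n).1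
      revert h3
      generalize cι (ix z) n = b
      generalize cι (ix w) n = b'
      intro h3
      cases b <;> cases b' <;> simp at h3 ⊢
    have hz' := hix z hz
    have hw' := hix w hw
    rw [← h2] at hw'
    apply hcd (ix z) hz' hw'
    funext n
    rw [(h1 n).2, h2]
  obtain ⟨T, h, H, iso⟩ := hS.iso hcode
  -- the limit point
  have hat : (atTop : Filter ι).NeBot := inferInstance
  let 𝓦 : Ultrafilter ι := Ultrafilter.of atTop
  have h𝓦 : (𝓦 : Filter ι) ≤ atTop := Ultrafilter.of_le _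
  obtain ⟨y, hysupp, hy⟩ := H.ultra_lim 𝓦 x
  have happ : ∀ (a : Finset T) (ε : ℝ), 0 < ε → ∀ i, ∃ j ≥ i, ∀ t ∈ a, |h t (x j) - y t| < ε := by
    intro a ε hε i
    have e1 : ∀ᶠ j in (𝓦 : Filter ι), ∀ t ∈ a, |h t (x j) - y t| < ε := by
      rw [eventually_all_finset]
      intro t _
      have := hy t
      rw [Metric.tendsto_nhds] at this
      exact this ε hε
    have e2 : ∀ᶠ j in (𝓦 : Filter ι), i ≤ j := h𝓦 (eventually_ge_atTop i)
    obtain ⟨j, hj1, hj2⟩ := (e1.and e2).exists
    exact ⟨j, hj2, hj1⟩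
  have tight : ∀ i : ι, ∃ z m, z ∈ closure (x '' Iio m) ∧ z ∈ G (x '' Iio i) ∧
      ∀ t, h t z = y t := by
    intro i
    obtain ⟨q, hq1, hq2⟩ := seq_lemma h (fun x => H.countable x) (fun _ => x '' Ici i) y hysupp (by
      intro n a ε hε
      obtain ⟨j, hj1, hj2⟩ := happ a ε hε i
      exact ⟨x j, ⟨j, hj1, rfl⟩, hj2⟩)
    choose j hj1 hj2 using hq1
    obtain ⟨m, hm⟩ := hbd (range j) (countable_range j)
    obtain ⟨z, hz⟩ := hcc q
    refine ⟨z, m, ?_, ?_, fun t => cluster_eq hz (hq2 t)⟩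
    · apply cluster_closed hz isClosed_closure
      intro n
      rw [← hj2 n]
      exact subset_closure ⟨j n, hm _ ⟨n, rfl⟩, rfl⟩
    · apply cluster_closed hz (hG _ (hcnt i)).1
      intro n
      rw [← hj2 n]
      exact hxG _ _ (hj1 n)
  obtain ⟨z0, m0, hz0, -, hz0y⟩ := tight (Classical.arbitrary ι)
  obtain ⟨z1, m1, hz1, hz1G, hz1y⟩ := tight m0
  have h1 : z1 = z0 := iso z0 (mem_iUnion.2 ⟨m0, hz0⟩) z1 fun t => (hz1y t).trans (hz0y t).symm
  rw [h1] at hz1G
  exact (hG _ (hcnt m0)).2.2 z0 hz0 hz1G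


/-- In a countably compact space every sequence has a cluster point. -/
theorem cc_of_countablyCompact (X : Type u) [TopologicalSpace X] [CountablyCompactSpace X] :
    CC X := by
  intro s
  obtain ⟨a, -, ha⟩ := isCountablyCompact_iff_seq_clusterPt.1
    (CountablyCompactSpace.isCountablyCompact_univ (E := X)) s (Filter.Eventually.of_forall
      fun n => mem_univ _)
  refine ⟨a, fun W hW => ?_⟩
  have h1 := mapClusterPt_iff_frequently.1 ha W hW
  exact Nat.frequently_atTop_iff_infinite.1 h1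

/-- Every countably compact Tychonoff space which is splittable over the class of Corson compact
spaces is compact and Corson compact. -/
theorem result :
    ∀ (X : Type u) [TopologicalSpace X] [T35Space X] [CountablyCompactSpace X],
      (∀ A : Set X, ∃ (Y : Type u) (_ : TopologicalSpace Y), CompactSpace Y ∧ T2Space Y ∧
        (∃ (κ : Type u) (e : Y → κ → ℝ), Topology.IsEmbedding e ∧
          ∀ y, {i : κ | e y i ≠ 0}.Countable) ∧
        ∃ f : X → Y, Continuous f ∧ f ⁻¹' (f '' A) = A) →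
      CompactSpace X ∧ ∃ (κ : Type u) (e : X → κ → ℝ), Topology.IsEmbedding e ∧
        ∀ x, {i : κ | e x i ≠ 0}.Countable := by
  intro X _ _ _ h
  have hC : CSplit X := by
    intro A
    obtain ⟨Y, tY, _, _, ⟨κ, e, he, hsupp⟩, f, hf, hA⟩ := h A
    refine ⟨κ, fun i => ⟨fun x => e (f x) i, (continuous_apply i).comp (he.continuous.comp hf)⟩,
      ⟨range e, isCompact_range he.continuous, fun x => ⟨f x, rfl⟩, ?_⟩, ?_⟩
    · rintro _ ⟨y, rfl⟩
      exact hsupp y
    · intro x hx y hy
      have hne : f x ≠ f y := by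
        intro heq
        apply hy
        rw [← hA]
        exact ⟨x, hx, heq⟩
      obtain ⟨i, hi⟩ := Function.ne_iff.1 (fun h => hne (he.injective h))
      exact ⟨i, hi⟩
  have hc : CompactSpace X := compact_of_cc (cc_of_countablyCompact X) hC
  have hS : Splits X := by
    apply splits_of_maps
    intro B
    obtain ⟨Y, tY, _, _, ⟨κ, e, he, hsupp⟩, f, hf, hB⟩ := h B
    exact ⟨Y, tY, κ, e, f, he.continuous, he.injective, hsupp, hf, hB⟩
  exact ⟨hc, embedding_of_corson hS.corson⟩

end Pool.Agent.Results.MP_e9bccb_gt.CountablyCompactSpaces
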